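import Pool.Agent.V5helper28.KP.Stm3

/-! Project KP, job COD: the coding map. -/

set_option autoImplicit false

namespace Pool.Agent.V5helper4.KPC

open MeasureTheory Set Filter
open Pool.Agent.V5helper28.SSK Pool.Agent.V5helper28.KP
open scoped ENNReal Topology

theorem t_COD : S_COD := by
  intro d m r v a Γ hr hr1 hne hcpt hinv
  obtain ⟨z₀, hz₀⟩ := hne
  set c : Fin m → E d × E d := fun k => (v k, a k) with hc
  set C : ℝ := ∑ k, ‖c k‖ with hC
  have hcC : ∀ k, ‖c k‖ ≤ C := fun k =>
    Finset.single_le_sum (f := fun k => ‖c k‖) (fun _ _ => norm_nonneg _) (Finset.mem_univ k)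
  have hgeo : Summable fun j : ℕ => r ^ j * C := (summable_geometric_of_lt_one hr.le hr1).mul_right C
  have hbd : ∀ (j : ℕ) (ω : ℕ → Fin m), ‖r ^ j • c (ω j)‖ ≤ r ^ j * C := by
    intro j ω
    rw [norm_smul, norm_pow, Real.norm_of_nonneg hr.le]
    exact mul_le_mul_of_nonneg_left (hcC _) (by positivity)
  have hsum : ∀ ω : ℕ → Fin m, Summable fun j : ℕ => r ^ j • c (ω j) :=
    fun ω => Summable.of_norm_bounded hgeo (fun j => hbd j ω)
  set π : (ℕ → Fin m) → E d × E d := fun ω => ∑' j : ℕ, r ^ j • c (ω j) with hπ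
  -- partial sums
  have hpart : ∀ (N : ℕ) (ω : ℕ → Fin m), r ^ N • z₀ + ∑ j ∈ Finset.range N, r ^ j • c (ω j) ∈ Γ := by
    intro N
    induction N with
    | zero =>
      intro ω
      simpa using hz₀
    | succ N ih =>
      intro ω
      have h1 := hinv (ω 0) _ (ih (fun j => ω (j + 1)))
      have e : r ^ (N + 1) • z₀ + ∑ j ∈ Finset.range (N + 1), r ^ j • c (ω j) =
          r • (r ^ N • z₀ + ∑ j ∈ Finset.range N, r ^ j • c (ω (j + 1))) + (v (ω 0), a (ω 0)) := by
        rw [Finset.sum_range_succ', smul_add, Finset.smul_sum, smul_smul, pow_zero, one_smul, pow_succ']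
        have e2 : ∀ j : ℕ, r ^ (j + 1) • c (ω (j + 1)) = r • r ^ j • c (ω (j + 1)) := by
          intro j
          rw [smul_smul, pow_succ']
        simp only [e2]
        rw [← add_assoc]
      rw [e]
      exact h1
  have hmem : ∀ ω, π ω ∈ Γ := by
    intro ω
    have h1 : Tendsto (fun N : ℕ => r ^ N • z₀ + ∑ j ∈ Finset.range N, r ^ j • c (ω j)) atTop
        (𝓝 ((0 : ℝ) • z₀ + π ω)) := by
      apply Tendsto.add
      · exact (tendsto_pow_atTop_nhds_zero_of_lt_one hr.le hr1).smul_const z₀
      · exact (hsum ω).hasSum.tendsto_sum_nat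
    rw [zero_smul, zero_add] at h1
    exact hcpt.isClosed.mem_of_tendsto h1 (Eventually.of_forall fun N => hpart N ω)
  refine ⟨π, ?_, ?_⟩
  · refine continuous_tsum (fun j => ?_) hgeo hbd
    have h1 : Continuous fun ω : ℕ → Fin m => c (ω j) :=
      (continuous_of_discreteTopology (f := c)).comp (continuous_apply j)
    exact h1.const_smul (r ^ j)
  · intro n ω
    refine ⟨π (fun j => ω (j + n)), hmem _, ?_⟩
    have h1 := (hsum ω).sum_add_tsum_nat_add n
    have h2 : ∑' j : ℕ, r ^ (j + n) • c (ω (j + n)) = r ^ n • π (fun j => ω (j + n)) := by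
      rw [hπ]
      simp only
      rw [← tsum_const_smul'']
      refine tsum_congr fun j => ?_
      rw [smul_smul, pow_add, mul_comm]
    have h3 : ∑ j ∈ Finset.range n, r ^ j • c (ω j) =
        (X v r n (fun j : Fin n => ω j), X a r n (fun j : Fin n => ω j)) := by
      rw [Finset.sum_range]
      unfold X
      apply Prod.ext
      · rw [Prod.fst_sum]
        rfl
      · rw [Prod.snd_sum]
        rfl
    rw [← h3, ← h2, add_comm]
    exact h1.symm

end Pool.Agent.V5helper4.KPC
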