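import Pool.Agent.V5helper28.KP.Stm

/-! Project KP, job PC: pair counting of cells. -/

set_option autoImplicit false

namespace Pool.Agent.V5helper4.KP

open Pool.Agent.V5helper28.SSK Pool.Agent.V5helper28.KP

open Classical in
lemma ncard_sum {α : Type*} [Fintype α] (p : α → Prop) :
    (Nat.card {a : α // p a} : ℝ) = ∑ a : α, if p a then (1 : ℝ) else 0 := by
  rw [Nat.card_eq_fintype_card, Fintype.card_subtype, Finset.sum_boole]

/-- sums with the weights `1 / nf` -/
lemma sum_nf {U S : Type*} [Fintype U] [DecidableEq S] (A : U → S) (g : S → ℝ) :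
    ∑ u : U, (nf Finset.univ A u)⁻¹ * g (A u) = ∑ q ∈ Finset.univ.image A, g q := by
  classical
  rw [← Finset.sum_fiberwise_of_maps_to (s := (Finset.univ : Finset U)) (t := Finset.univ.image A) (g := A)
    (fun x hx => Finset.mem_image_of_mem _ hx)]
  refine Finset.sum_congr rfl fun q hq => ?_
  obtain ⟨u₀, -, rfl⟩ := Finset.mem_image.1 hq
  have h1 : ∀ u ∈ Finset.univ.filter (fun i => A i = A u₀), (nf Finset.univ A u)⁻¹ * g (A u) =
      (nf Finset.univ A u₀)⁻¹ * g (A u₀) := by
    intro u hu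
    rw [Finset.mem_filter] at hu
    have h2 : nf Finset.univ A u = nf Finset.univ A u₀ := by
      unfold nf fib
      rw [hu.2]
    rw [h2, hu.2]
  rw [Finset.sum_congr rfl h1, Finset.sum_const, nsmul_eq_mul]
  have h3 : ((Finset.univ.filter (fun i => A i = A u₀)).card : ℝ) = nf Finset.univ A u₀ := by
    unfold nf fib
    congr
  rw [h3, ← mul_assoc, mul_inv_cancel₀ (nf_pos (Finset.mem_univ _)).ne', one_mul]

/-- fibres of a map, sum over finitely many values -/
lemma sum_fib_le {U S : Type*} [Fintype U] [DecidableEq S] (φ : U → S) (T : Finset S) :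
    ∑ q ∈ T, ∑ u : U, (if φ u = q then (1 : ℝ) else 0) ≤ Fintype.card U := by
  rw [Finset.sum_comm]
  calc ∑ u : U, ∑ q ∈ T, (if φ u = q then (1 : ℝ) else 0) ≤ ∑ _u : U, (1 : ℝ) := by
        apply Finset.sum_le_sum
        intro u _
        rw [Finset.sum_ite_eq]
        split_ifs <;> norm_num
    _ = Fintype.card U := by simp

lemma card_Icc_le (a L : ℝ) (hL : 0 ≤ L) :
    ((Finset.Icc ⌈a - L⌉ ⌊a + L⌋).card : ℝ) ≤ 2 * L + 1 := by
  rw [Int.card_Icc]
  have h1 := Int.floor_le (a + L)
  have h2 := Int.le_ceil (a - L)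
  rcases le_or_gt 0 (⌊a + L⌋ + 1 - ⌈a - L⌉) with h | h
  · have h3 : (((⌊a + L⌋ + 1 - ⌈a - L⌉).toNat : ℕ) : ℝ) = ((⌊a + L⌋ + 1 - ⌈a - L⌉ : ℤ) : ℝ) := by
      rw [← Int.cast_natCast, Int.toNat_of_nonneg h]
    rw [h3]
    push_cast
    linarith
  · rw [Int.toNat_of_nonpos h.le]
    simp only [Nat.cast_zero]
    linarith

theorem t_PC : S_PC := by
  classical
  intro d U _ _ r n x M z hr hM
  have hrn : 0 < r ^ n := pow_pos hr n
  set A : U → (Fin d → ℤ) := fun u => cl r n (x u) with hA
  set J : Finset (Fin d → ℤ) := Fintype.piFinset (fun k =>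
    Finset.Icc ⌈z k / r ^ n - (M + 1)⌉ ⌊z k / r ^ n + (M + 1)⌋) with hJ
  have hJc : (J.card : ℝ) ≤ (2 * M + 3) ^ d := by
    rw [hJ, Fintype.card_piFinset]
    push_cast
    calc ∏ k : Fin d, ((Finset.Icc ⌈z k / r ^ n - (M + 1)⌉ ⌊z k / r ^ n + (M + 1)⌋).card : ℝ)
        ≤ ∏ _k : Fin d, (2 * M + 3) := by
          apply Finset.prod_le_prod
          · intro k _
            positivity
          · intro k _
            refine (card_Icc_le _ _ (by linarith)).trans ?_
            linarith
      _ = (2 * M + 3) ^ d := by simp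
  have hcnt : ∀ u : U, (Nat.card {u' : U // ‖x u' - (x u + z)‖ ≤ M * r ^ n} : ℝ) ≤
      ∑ j ∈ J, ∑ u' : U, (if A u' - j = A u then (1 : ℝ) else 0) := by
    intro u
    rw [ncard_sum, Finset.sum_comm]
    apply Finset.sum_le_sum
    intro u' _
    split_ifs with h
    · have hmem : A u' - A u ∈ J := by
        rw [hJ, Fintype.mem_piFinset]
        intro k
        have h1 := (abs_apply_le_norm (x u' - (x u + z)) k).trans h
        simp only [PiLp.sub_apply, PiLp.add_apply] at h1
        have h2 : |x u' k / r ^ n - x u k / r ^ n - z k / r ^ n| ≤ M := by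
          rw [← sub_div, ← sub_div, abs_div, abs_of_pos hrn, div_le_iff₀ hrn]
          have e : x u' k - x u k - z k = x u' k - (x u k + z k) := by ring
          rw [e]
          exact h1
        have h3 := Int.floor_le (x u' k / r ^ n)
        have h4 := Int.lt_floor_add_one (x u' k / r ^ n)
        have h5 := Int.floor_le (x u k / r ^ n)
        have h6 := Int.lt_floor_add_one (x u k / r ^ n)
        rw [abs_le] at h2
        rw [Finset.mem_Icc, Int.ceil_le, Int.le_floor]
        have e : (((A u' - A u) k : ℤ) : ℝ) = (⌊x u' k / r ^ n⌋ : ℝ) - (⌊x u k / r ^ n⌋ : ℝ) := by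
          rw [Pi.sub_apply, Int.cast_sub]
          rfl
        rw [e]
        constructor <;> linarith [h2.1, h2.2]
      have h1 := Finset.single_le_sum (f := fun j => if A u' - j = A u then (1 : ℝ) else 0)
        (fun j _ => by split_ifs <;> norm_num) hmem
      have h2 : A u' - (A u' - A u) = A u := by abel
      simp only [h2, if_true] at h1
      exact h1
    · exact Finset.sum_nonneg fun j _ => by split_ifs <;> norm_num
  calc ∑ u : U, (nf Finset.univ A u)⁻¹ * (Nat.card {u' : U // ‖x u' - (x u + z)‖ ≤ M * r ^ n} : ℝ)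
      ≤ ∑ u : U, (nf Finset.univ A u)⁻¹ * ∑ j ∈ J, ∑ u' : U, (if A u' - j = A u then (1 : ℝ) else 0) := by
        apply Finset.sum_le_sum
        intro u _
        refine mul_le_mul_of_nonneg_left (hcnt u) ?_
        exact inv_nonneg.2 (nf_pos (Finset.mem_univ _)).le
    _ = ∑ j ∈ J, ∑ u : U, (nf Finset.univ A u)⁻¹ * ∑ u' : U, (if A u' - j = A u then (1 : ℝ) else 0) := by
        simp only [Finset.mul_sum]
        rw [Finset.sum_comm]
    _ = ∑ j ∈ J, ∑ q ∈ Finset.univ.image A, ∑ u' : U, (if A u' - j = q then (1 : ℝ) else 0) := by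
        refine Finset.sum_congr rfl fun j _ => ?_
        exact sum_nf A (fun q => ∑ u' : U, (if A u' - j = q then (1 : ℝ) else 0))
    _ ≤ ∑ _j ∈ J, (Fintype.card U : ℝ) := Finset.sum_le_sum fun j _ => sum_fib_le (fun u' => A u' - j) _
    _ = J.card * (Fintype.card U : ℝ) := by rw [Finset.sum_const, nsmul_eq_mul]
    _ ≤ (2 * M + 3) ^ d * Fintype.card U := mul_le_mul_of_nonneg_right hJc (Nat.cast_nonneg _)

end Pool.Agent.V5helper4.KP
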