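import Pool.Agent.V5helper28.KP.Stm

/-! Project KP, job PK: pair counting of words, induction on the length. -/

set_option autoImplicit false

namespace Pool.Agent.V5helper4.KPK

open Pool.Agent.V5helper28.SSK Pool.Agent.V5helper28.KP

open Classical in
lemma ncard_sum {α : Type*} [Fintype α] (p : α → Prop) :
    (Nat.card {a : α // p a} : ℝ) = ∑ a : α, if p a then (1 : ℝ) else 0 := by
  rw [Nat.card_eq_fintype_card, Fintype.card_subtype, Finset.sum_boole]

lemma sum_snoc {U : Type} [Fintype U] (k : ℕ) (F : (Fin (k + 1) → U) → ℝ) :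
    ∑ v, F v = ∑ ω : Fin k → U, ∑ u : U, F (Fin.snoc (α := fun _ => U) ω u) := by
  rw [← (Fin.snocEquiv (fun _ => U)).sum_comp, Fintype.sum_prod_type, Finset.sum_comm]
  rfl

theorem t_PK : S_PK := by
  classical
  intro d U _ _ x f ρ R M B hρ hρ1 hx hM hf hB k
  have hB0 : 0 ≤ B := by
    refine le_trans ?_ (hB 0)
    refine Finset.sum_nonneg fun u _ => ?_
    have := hf u
    positivity
  induction k with
  | zero =>
    rw [pow_zero]
    have h1 : ∀ ω : Fin 0 → U, (∏ j, f (ω j))⁻¹ * (Nat.card {ω' : Fin 0 → U //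
        ‖(∑ j : Fin 0, ρ ^ (j : ℕ) • x (ω' j)) - ∑ j : Fin 0, ρ ^ (j : ℕ) • x (ω j)‖ ≤ M * ρ ^ 0} : ℝ) ≤ 1 := by
      intro ω
      rw [Finset.univ_eq_empty, Finset.prod_empty, inv_one, one_mul]
      have : Nat.card {ω' : Fin 0 → U //
        ‖(∑ j : Fin 0, ρ ^ (j : ℕ) • x (ω' j)) - ∑ j : Fin 0, ρ ^ (j : ℕ) • x (ω j)‖ ≤ M * ρ ^ 0} ≤ 1 :=
        Finite.card_le_one_iff_subsingleton.2 inferInstance
      exact_mod_cast this
    calc _ ≤ ∑ _ω : Fin 0 → U, (1 : ℝ) := Finset.sum_le_sum fun ω _ => h1 ω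
      _ = 1 := by simp
  | succ k ih =>
    set Y : (Fin k → U) → E d := fun ω => ∑ j : Fin k, ρ ^ (j : ℕ) • x (ω j) with hY
    have hρk : 0 < ρ ^ k := pow_pos hρ k
    have hYs : ∀ (ω : Fin k → U) (u : U), ∑ j : Fin (k + 1), ρ ^ (j : ℕ) •
        x ((Fin.snoc (α := fun _ => U) ω u : Fin (k + 1) → U) j) = Y ω + ρ ^ k • x u := by
      intro ω u
      rw [Fin.sum_univ_castSucc]
      simp only [Fin.snoc_castSucc, Fin.snoc_last, Fin.val_castSucc, Fin.val_last]
      rfl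
    have hfs : ∀ (ω : Fin k → U) (u : U), ∏ j : Fin (k + 1),
        f ((Fin.snoc (α := fun _ => U) ω u : Fin (k + 1) → U) j) = (∏ j, f (ω j)) * f u := by
      intro ω u
      rw [Fin.prod_univ_castSucc]
      simp only [Fin.snoc_castSucc, Fin.snoc_last]
    -- the last letters
    have hlast : ∀ ω ω' : Fin k → U, ∑ u : U, (f u)⁻¹ * ∑ u' : U,
        (if ‖(Y ω' + ρ ^ k • x u') - (Y ω + ρ ^ k • x u)‖ ≤ M * ρ ^ (k + 1) then (1 : ℝ) else 0) ≤
        if ‖Y ω' - Y ω‖ ≤ M * ρ ^ k then B else 0 := by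
      intro ω ω'
      split_ifs with hn
      · refine le_trans ?_ (hB ((ρ ^ k)⁻¹ • (Y ω - Y ω')))
        refine Finset.sum_le_sum fun u _ => ?_
        refine mul_le_mul_of_nonneg_left ?_ (inv_nonneg.2 (hf u).le)
        rw [ncard_sum]
        refine Finset.sum_le_sum fun u' _ => ?_
        by_cases h : ‖(Y ω' + ρ ^ k • x u') - (Y ω + ρ ^ k • x u)‖ ≤ M * ρ ^ (k + 1)
        · have h2 : ‖x u' - (x u + (ρ ^ k)⁻¹ • (Y ω - Y ω'))‖ ≤ M * ρ := by
            have e : x u' - (x u + (ρ ^ k)⁻¹ • (Y ω - Y ω')) =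
                (ρ ^ k)⁻¹ • ((Y ω' + ρ ^ k • x u') - (Y ω + ρ ^ k • x u)) := by
              have h3 : ∀ y : E d, (ρ ^ k)⁻¹ • (ρ ^ k • y) = y := fun y => inv_smul_smul₀ hρk.ne' y
              simp only [smul_sub, smul_add, h3]
              abel
            rw [e, norm_smul, norm_inv, Real.norm_of_nonneg hρk.le, inv_mul_le_iff₀ hρk]
            calc _ ≤ M * ρ ^ (k + 1) := h
              _ = ρ ^ k * (M * ρ) := by ring
          rw [if_pos h, if_pos h2]
        · rw [if_neg h]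
          split_ifs <;> norm_num
      · refine le_of_eq ?_
        refine Finset.sum_eq_zero fun u _ => ?_
        rw [Finset.sum_eq_zero, mul_zero]
        intro u' _
        rw [if_neg]
        intro h
        apply hn
        have e : Y ω' - Y ω = ((Y ω' + ρ ^ k • x u') - (Y ω + ρ ^ k • x u)) + (ρ ^ k • x u - ρ ^ k • x u') := by
          abel
        have h3 : ‖ρ ^ k • x u - ρ ^ k • x u'‖ ≤ ρ ^ k * (2 * R) := by
          rw [← smul_sub, norm_smul, Real.norm_of_nonneg hρk.le]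
          refine mul_le_mul_of_nonneg_left ?_ hρk.le
          refine (norm_sub_le _ _).trans ?_
          linarith [hx u, hx u']
        calc ‖Y ω' - Y ω‖ ≤ ‖(Y ω' + ρ ^ k • x u') - (Y ω + ρ ^ k • x u)‖ + ‖ρ ^ k • x u - ρ ^ k • x u'‖ := by
              rw [e]
              exact norm_add_le _ _
          _ ≤ M * ρ ^ (k + 1) + ρ ^ k * (2 * R) := add_le_add h h3
          _ ≤ M * ρ ^ (k + 1) + ρ ^ k * (M * (1 - ρ)) := by gcongr
          _ = M * ρ ^ k := by ring
    have hmain : ∀ ω : Fin k → U, ∑ u : U, (∏ j : Fin (k + 1),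
        f ((Fin.snoc (α := fun _ => U) ω u : Fin (k + 1) → U) j))⁻¹ *
        (Nat.card {ω' : Fin (k + 1) → U // ‖(∑ j : Fin (k + 1), ρ ^ (j : ℕ) • x (ω' j)) -
          ∑ j : Fin (k + 1), ρ ^ (j : ℕ) • x ((Fin.snoc (α := fun _ => U) ω u : Fin (k + 1) → U) j)‖ ≤
            M * ρ ^ (k + 1)} : ℝ) ≤
        B * ((∏ j, f (ω j))⁻¹ * (Nat.card {ω' : Fin k → U // ‖Y ω' - Y ω‖ ≤ M * ρ ^ k} : ℝ)) := by
      intro ω
      have hP : 0 < ∏ j, f (ω j) := Finset.prod_pos fun j _ => hf _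
      calc _ = ∑ u : U, (∏ j, f (ω j))⁻¹ * ((f u)⁻¹ * ∑ ω' : Fin k → U, ∑ u' : U,
            (if ‖(Y ω' + ρ ^ k • x u') - (Y ω + ρ ^ k • x u)‖ ≤ M * ρ ^ (k + 1) then (1 : ℝ) else 0)) := by
            refine Finset.sum_congr rfl fun u _ => ?_
            rw [ncard_sum, sum_snoc, hfs, mul_inv, mul_assoc]
            congr 2
            refine Finset.sum_congr rfl fun ω' _ => Finset.sum_congr rfl fun u' _ => ?_
            rw [hYs, hYs]
        _ = (∏ j, f (ω j))⁻¹ * ∑ ω' : Fin k → U, ∑ u : U, (f u)⁻¹ * ∑ u' : U,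
            (if ‖(Y ω' + ρ ^ k • x u') - (Y ω + ρ ^ k • x u)‖ ≤ M * ρ ^ (k + 1) then (1 : ℝ) else 0) := by
            rw [← Finset.mul_sum]
            congr 1
            rw [Finset.sum_comm]
            refine Finset.sum_congr rfl fun u _ => ?_
            rw [Finset.mul_sum]
        _ ≤ (∏ j, f (ω j))⁻¹ * ∑ ω' : Fin k → U, (if ‖Y ω' - Y ω‖ ≤ M * ρ ^ k then B else 0) := by
            refine mul_le_mul_of_nonneg_left ?_ (inv_nonneg.2 hP.le)
            exact Finset.sum_le_sum fun ω' _ => hlast ω ω'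
        _ = _ := by
            rw [ncard_sum]
            have : ∑ ω' : Fin k → U, (if ‖Y ω' - Y ω‖ ≤ M * ρ ^ k then B else 0) =
                B * ∑ ω' : Fin k → U, (if ‖Y ω' - Y ω‖ ≤ M * ρ ^ k then (1 : ℝ) else 0) := by
              rw [Finset.mul_sum]
              refine Finset.sum_congr rfl fun ω' _ => ?_
              split_ifs <;> simp
            rw [this]
            ring
    rw [sum_snoc]
    calc _ ≤ ∑ ω : Fin k → U, B * ((∏ j, f (ω j))⁻¹ *
          (Nat.card {ω' : Fin k → U // ‖Y ω' - Y ω‖ ≤ M * ρ ^ k} : ℝ)) :=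
          Finset.sum_le_sum fun ω _ => hmain ω
      _ = B * ∑ ω : Fin k → U, (∏ j, f (ω j))⁻¹ *
          (Nat.card {ω' : Fin k → U // ‖Y ω' - Y ω‖ ≤ M * ρ ^ k} : ℝ) := by rw [Finset.mul_sum]
      _ ≤ B * B ^ k := mul_le_mul_of_nonneg_left ih hB0
      _ = B ^ (k + 1) := by ring

end Pool.Agent.V5helper4.KPK
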